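import Pool.Agent.Helper22.RKI.St

set_option autoImplicit false

namespace Pool.Agent.Helper63.RKI

open Pool.Agent.Helper43.RK Pool.Agent.Helper22.RKI

theorem hTH : StTH := by
  intro k A _ G _ D v l r e h
  unfold Fd.Tri at h ⊢
  have hfk : D.f ^ (k : ℤ) = D.a⁻¹ * D.f * D.a := by rw [D.fa, zpow_natCast]
  have hX1 : D.a⁻¹ * D.p (-l) * D.a = D.p r * D.Z ^ e * D.a⁻¹ * D.p (-v) := by
    rw [D.pneg, D.pneg]
    have h1 : D.p r * D.Z ^ e = D.a⁻¹ * (D.p l)⁻¹ * (D.a * D.p v * D.a) := by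
      rw [h]; group
    rw [h1]; group
  have hX2 : (D.a⁻¹ * D.p (-l) * D.a) * (D.a⁻¹ * D.p (-l) * D.a) =
      D.f ^ (-(k : ℤ)) * (D.a⁻¹ * D.p (-l) * D.a) * D.f ^ (k : ℤ) := by
    have h1 : (D.a⁻¹ * D.p (-l) * D.a) * (D.a⁻¹ * D.p (-l) * D.a) =
        D.a⁻¹ * D.p (2 * (-l)) * D.a := by
      rw [two_mul, D.p_add]; group
    rw [h1, ← D.pf, zpow_neg, hfk]
    simp only [mul_inv_rev, inv_inv, mul_assoc, mul_inv_cancel_left, inv_mul_cancel_left]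
  rw [hX1] at hX2
  have e1 : D.f ^ (-(k : ℤ)) * D.p r = D.p ((D.q : A) * r) * D.f ^ (-(k : ℤ)) := by
    rw [D.fzp, neg_neg]; rfl
  have e2 : D.p (-v) * D.f ^ (k : ℤ) = D.f ^ (k : ℤ) * D.p (-((D.q : A) * v)) := by
    rw [D.pfz, ← mul_neg]; rfl
  have e3 : D.f ^ (-(k : ℤ)) * D.Z ^ e = D.Z ^ e * D.f ^ (-(k : ℤ)) := D.fZ _ _
  have e4 : D.f ^ (-(k : ℤ)) * D.a⁻¹ = D.a⁻¹ * D.f⁻¹ := by
    rw [zpow_neg, hfk]; group
  have e5 : D.f⁻¹ * D.f ^ (k : ℤ) = D.Z⁻¹ := by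
    have h1 : D.Z⁻¹ = D.f ^ ((k : ℤ) - 1) := by
      show (D.f ^ (1 - (k : ℤ)))⁻¹ = _
      rw [← zpow_neg]; congr 1; ring
    rw [h1, zpow_sub_one]
    group
  have hR : D.f ^ (-(k : ℤ)) * (D.p r * D.Z ^ e * D.a⁻¹ * D.p (-v)) * D.f ^ (k : ℤ) =
      D.p ((D.q : A) * r) * D.Z ^ e * D.a⁻¹ * D.Z⁻¹ * D.p (-((D.q : A) * v)) := by
    calc D.f ^ (-(k : ℤ)) * (D.p r * D.Z ^ e * D.a⁻¹ * D.p (-v)) * D.f ^ (k : ℤ)
        = (D.f ^ (-(k : ℤ)) * D.p r) * D.Z ^ e * D.a⁻¹ * (D.p (-v) * D.f ^ (k : ℤ)) := by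
          simp only [mul_assoc]
      _ = D.p ((D.q : A) * r) * (D.f ^ (-(k : ℤ)) * D.Z ^ e) * D.a⁻¹ *
          (D.f ^ (k : ℤ) * D.p (-((D.q : A) * v))) := by
          rw [e1, e2]; simp only [mul_assoc]
      _ = D.p ((D.q : A) * r) * D.Z ^ e * (D.f ^ (-(k : ℤ)) * D.a⁻¹) *
          (D.f ^ (k : ℤ) * D.p (-((D.q : A) * v))) := by
          rw [e3]; simp only [mul_assoc]
      _ = D.p ((D.q : A) * r) * D.Z ^ e * D.a⁻¹ * (D.f⁻¹ * D.f ^ (k : ℤ)) *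
          D.p (-((D.q : A) * v)) := by
          rw [e4]; simp only [mul_assoc]
      _ = _ := by rw [e5]
  rw [hR] at hX2
  -- main identity
  have hm : D.a⁻¹ * D.p (r - v) * D.Z ^ e * D.a⁻¹ =
      D.Z ^ (-e) * D.p (((D.q : A) - 1) * r) * D.Z ^ e * D.a⁻¹ * D.Z⁻¹ *
        D.p (-(((D.q : A) - 1) * v)) := by
    have h1 : D.p (r - v) = D.p (-v) * D.p r := by
      rw [← D.p_add]; congr 1; ring
    have h2 : D.p (((D.q : A) - 1) * r) = (D.p r)⁻¹ * D.p ((D.q : A) * r) := by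
      rw [← D.pneg, ← D.p_add]; congr 1; ring
    have h3 : D.p (-(((D.q : A) - 1) * v)) = D.p (-((D.q : A) * v)) * (D.p (-v))⁻¹ := by
      rw [← D.pneg, ← D.p_add]; congr 1; ring
    rw [h1, h2, h3, zpow_neg]
    calc D.a⁻¹ * (D.p (-v) * D.p r) * D.Z ^ e * D.a⁻¹
        = (D.Z ^ e)⁻¹ * (D.p r)⁻¹ * ((D.p r * D.Z ^ e * D.a⁻¹ * D.p (-v)) *
          (D.p r * D.Z ^ e * D.a⁻¹ * D.p (-v))) * (D.p (-v))⁻¹ := by
          simp only [mul_assoc, mul_inv_cancel_left, inv_mul_cancel_left, mul_inv_cancel, mul_one]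
      _ = _ := by rw [hX2]; simp only [mul_assoc]
  have hinv := congrArg (fun g => g⁻¹) hm
  simp only [mul_inv_rev, inv_inv] at hinv
  -- a * ((Z^e)⁻¹ * ((p (r-v))⁻¹ * a)) = ...
  have i1 : (D.p (r - v))⁻¹ = D.p (v - r) := by rw [← D.pneg]; congr 1; ring
  have i2 : (D.p (-(((D.q : A) - 1) * v)))⁻¹ = D.p (((D.q : A) - 1) * v) := by
    rw [← D.pneg, neg_neg]
  have i3 : (D.Z ^ e)⁻¹ * (D.p (((D.q : A) - 1) * r))⁻¹ * (D.Z ^ (-e))⁻¹ =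
      D.p (-(((D.c ^ (-e) : Aˣ) : A) * (((D.q : A) - 1) * r))) := by
    rw [← D.pneg, ← zpow_neg, ← zpow_neg, D.Zp, mul_neg, neg_neg, mul_assoc, ← zpow_add]
    simp
  have i4 : (D.Z ^ e)⁻¹ * D.p (v - r) = D.p ((v - r) * ((D.c ^ (-e) : Aˣ) : A)) * D.Z ^ (-e) := by
    rw [← zpow_neg, D.Zp, mul_comm (v - r)]
  have i5 : D.Z ^ (-e) * D.a = D.a * D.Z ^ ((k : ℤ) * (-e)) := D.Za _
  have i6 : D.Z * D.a = D.a * D.Z ^ (k : ℤ) := by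
    have := D.Za 1
    rwa [zpow_one, mul_one] at this
  have i7 : D.Z ^ (k : ℤ) * D.p (-(((D.c ^ (-e) : Aˣ) : A) * (((D.q : A) - 1) * r))) =
      D.p (-(((D.q : A) - 1) * r * ((D.c ^ ((k : ℤ) - e) : Aˣ) : A))) * D.Z ^ (k : ℤ) := by
    rw [D.Zp]
    congr 2
    rw [sub_eq_add_neg (k : ℤ) e, zpow_add, Units.val_mul]
    ring
  have hL : D.a * ((D.Z ^ e)⁻¹ * ((D.p (r - v))⁻¹ * D.a)) =
      D.a * D.p ((v - r) * ((D.c ^ (-e) : Aˣ) : A)) * D.a * D.Z ^ ((k : ℤ) * (-e)) := by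
    rw [i1, ← mul_assoc ((D.Z ^ e)⁻¹), i4, mul_assoc (D.p _), i5]
    simp only [mul_assoc]
  have hRR : D.p (((D.q : A) - 1) * v) * D.Z * D.a *
      D.p (-(((D.c ^ (-e) : Aˣ) : A) * (((D.q : A) - 1) * r))) =
      D.p (((D.q : A) - 1) * v) * D.a *
        D.p (-(((D.q : A) - 1) * r * ((D.c ^ ((k : ℤ) - e) : Aˣ) : A))) * D.Z ^ (k : ℤ) := by
    rw [mul_assoc (D.p _) D.Z D.a, i6, ← mul_assoc (D.p _) D.a, mul_assoc _ (D.Z ^ (k : ℤ)), i7]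
    simp only [mul_assoc]
  have hfin : D.a * D.p ((v - r) * ((D.c ^ (-e) : Aˣ) : A)) * D.a * D.Z ^ ((k : ℤ) * (-e)) =
      D.p (((D.q : A) - 1) * v) * D.a *
        D.p (-(((D.q : A) - 1) * r * ((D.c ^ ((k : ℤ) - e) : Aˣ) : A))) * D.Z ^ (k : ℤ) := by
    rw [← hL, ← hRR, ← i2, ← i3]
    refine Eq.trans ?_ (hinv.trans ?_)
    · simp only [mul_assoc]
    · simp only [mul_assoc]
  have h8 : D.a * D.p ((v - r) * ((D.c ^ (-e) : Aˣ) : A)) * D.a =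
      (D.a * D.p ((v - r) * ((D.c ^ (-e) : Aˣ) : A)) * D.a * D.Z ^ ((k : ℤ) * (-e))) *
        D.Z ^ ((k : ℤ) * e) := by
    rw [mul_assoc _ (D.Z ^ _) (D.Z ^ _), ← zpow_add]
    simp
  rw [h8, hfin, mul_assoc _ (D.Z ^ _) (D.Z ^ _), ← zpow_add]
  congr 2
  ring

end Pool.Agent.Helper63.RKI
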